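import Pool.Agent.ML14.Growth

/-!
# A new column multiplies the ML degree

For `1 ≤ r ≤ m, n` the ML degree of the `m × (n+1)` matrices of rank at most `r` is at least
`C(m-1,r-1)` times that of the `m × n` matrices, and likewise for a new row.
-/

namespace Pool.Agent.Results.MP_14430d_ag.ColumnGrowth

open Pool.ML

/-- Growth of the ML degree of the matrices of rank at most `r` with a new column or a new row;
the same for the number of critical points of any data with algebraically independent entries. -/
theorem result (m n r : ℕ) (hr : 1 ≤ r) (hm : r ≤ m) (hn : r ≤ n) :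
    (∀ N N', IsMLDegree m n r N → IsMLDegree m (n + 1) r N' →
      (m - 1).choose (r - 1) * N ≤ N') ∧
    (∀ N N', IsMLDegree m n r N → IsMLDegree (m + 1) n r N' →
      (n - 1).choose (r - 1) * N ≤ N') ∧
    (∀ u : Matrix (Fin m) (Fin n) ℂ,
      AlgebraicIndependent ℚ (fun x : Fin m × Fin n => u x.1 x.2) →
      {p | IsCritical r u p}.Finite ∧
      (∀ u' : Matrix (Fin m) (Fin (n + 1)) ℂ,
        AlgebraicIndependent ℚ (fun x : Fin m × Fin (n + 1) => u' x.1 x.2) →
        {p | IsCritical r u' p}.Finite ∧
        (m - 1).choose (r - 1) * {p | IsCritical r u p}.ncard ≤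
          {p | IsCritical r u' p}.ncard) ∧
      (∀ u' : Matrix (Fin (m + 1)) (Fin n) ℂ,
        AlgebraicIndependent ℚ (fun x : Fin (m + 1) × Fin n => u' x.1 x.2) →
        {p | IsCritical r u' p}.Finite ∧
        (n - 1).choose (r - 1) * {p | IsCritical r u p}.ncard ≤
          {p | IsCritical r u' p}.ncard)) :=
  ⟨fun _ _ hN hN' => MLDegree_col hr hm hn hN hN',
    fun _ _ hN hN' => MLDegree_row hr hm hn hN hN',
    fun u hu => ⟨(finite_of_alg hr hm hn u hu).1,
      fun u' hu' => ⟨(finite_of_alg hr hm (by omega) u' hu').1,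
        col_growth hr hm hn u hu u' hu'⟩,
      fun u' hu' => ⟨(finite_of_alg hr (by omega) hn u' hu').1,
        row_growth hr hm hn u hu u' hu'⟩⟩⟩

end Pool.Agent.Results.MP_14430d_ag.ColumnGrowth
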