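import Pool.Agent.Tw.StateEq

/-!
# The ML degree of the matrices of rank at most r as a sum over matroids

For `1 ≤ r ≤ m ≤ n` the ML degree `N` of the `m × n` matrices of rank at most `r` is
`(-1)^((r+1)(m-r)) ∑_M β(M)^(n+1) χ(R_M)`, where `M` runs through the matroids of rank `r` on
`m + 1` elements, given by their rank functions `ρ`, `β` is Crapo's beta invariant and `R_M` is the
realisation space of `M` over `ℂ` up to scaling of the coordinates: the subset, where the rank
function is `ρ`, of a constructible set `Y` of representatives.  It is also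
`(-1)^(r(m-r)) ∑_b b^n χ{L ∈ Gr(r, m) : β(L) = b}`, where `β(L)` is the beta invariant of the
matroid of the `m` coordinates and their sum on `L`.  For `m = 5` and `r = 3` the Euler
characteristics are computed.

`chi k S` is the Euler characteristic of a constructible set `S ⊆ ℂ^k`, computed by integration
over one coordinate after the other.  An `r`-dimensional subspace is given by its reduced echelon
matrix; the bijection `e` is an arbitrary order of the entries of this matrix.
-/

namespace Pool.Agent.Results.MP_14430d_ag.EulerFormula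

open Pool.ML Pool.MLF

/-- The ML degree of the `m × n` and of the `n × m` matrices of rank at most `r` as a sum of powers
of beta invariants weighted by Euler characteristics: over the realisation spaces of the matroids of
rank `r` on `m + 1` elements, and over the Grassmannian of `r`-spaces of `ℂ^m`; evaluated for
`m = 5` and `r = 3`. -/
theorem result (m n r : ℕ) (hr : 1 ≤ r) (hm : r ≤ m) (hn : m ≤ n) :
    ∃ N : ℕ, IsMLDegree m n r N ∧ IsMLDegree n m r N ∧
      (∀ u : Matrix (Fin m) (Fin n) ℂ,
        AlgebraicIndependent ℚ (fun x : Fin m × Fin n => u x.1 x.2) →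
        {p | IsCritical r u p}.Finite ∧ {p | IsCritical r u p}.ncard = N) ∧
      (∃ Y : Set (Fin r × Fin (m + 1) → ℂ), IsRepresentatives Y) ∧
      (∀ (Y : Set (Fin r × Fin (m + 1) → ℂ)) (k : ℕ) (e : Fin r × Fin (m + 1) ≃ Fin k),
        IsRepresentatives Y → (N : ℤ) = (-1) ^ ((r + 1) * (m - r)) *
          ∑ᶠ ρ : Finset (Fin (m + 1)) → ℕ, crapoBeta r ρ ^ (n + 1) *
            chi k {x | x ∘ e ∈ Y ∧ rankOn (coords (m + 1)) (rowSpace (x ∘ e)) = ρ}) ∧
      (∀ (k : ℕ) (e : Fin r × Fin m ≃ Fin k), (N : ℤ) = (-1) ^ (r * (m - r)) *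
        ∑ᶠ b : ℤ, b ^ n * chi k {x | IsEchelon (x ∘ e) ∧
          crapoBeta r (rankOn (coordsAndSum m) (rowSpace (x ∘ e))) = b}) ∧
      (m = 5 → r = 3 → (N : ℤ) =
        156 * 6 ^ n - 600 * 5 ^ n + 760 * 4 ^ n - 180 * 3 ^ n - 360 * 2 ^ n + 290) :=
  formula m n r hr hm hn

end Pool.Agent.Results.MP_14430d_ag.EulerFormula
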