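import Pool.Agent.ML61.SpecCount
import Pool.Agent.ML61.Branches

/-!
# The ML degree of the matrices of rank at most r as a function of the number of columns

For fixed `m` and `r` put `b = C(m-1,r-1)`.  There are natural numbers `g 1, ..., g b` such that
for all `n ≥ m` the ML degree of the variety of the `m × n` matrices of rank at most `r` is
`S(n-m+1,1) g 1 + ... + S(n-m+1,b) g b`, with the Stirling numbers of the second kind.
Equivalently it is a combination of `1, 2^n, ..., b^n`, and the coefficient of `b^n` is positive.
The constant `g l` is the number of critical points of the data `(u | c_1 w | ... | c_l w)` with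
`m - 1` generic columns and `l` generic multiples of one generic column for which the last `l`
columns stay pairwise non-proportional in the sense that the columns divided by `c_1, ..., c_l`
are pairwise distinct.
-/

namespace Pool.Agent.Results.MP_14430d_ag.ExponentialSum

open Pool.ML

/-- For all `n ≥ m` the ML degree of the `m × n` (or `n × m`) matrices of rank at most `r` is a
fixed combination of the Stirling numbers of the second kind `S(n-m+1,l)` and of the powers
`a^n`, where `l` and `a` run through `1, ..., C(m-1,r-1)`; the same for the number of critical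
points of any data with algebraically independent entries; the constants of the first
combination are numbers of critical points of special data of bounded size. -/
theorem result (m r : ℕ) (hr : 1 ≤ r) (hm : r ≤ m) :
    ∃ (g : ℕ → ℕ) (lam : ℕ → ℚ),
      0 < g ((m - 1).choose (r - 1)) ∧ 0 < lam ((m - 1).choose (r - 1)) ∧
      (∀ n N : ℕ, m ≤ n → (IsMLDegree m n r N ∨ IsMLDegree n m r N) →
        N = ∑ l ∈ Finset.Icc 1 ((m - 1).choose (r - 1)),
          Nat.stirlingSecond (n - m + 1) l * g l ∧
        (N : ℚ) = ∑ a ∈ Finset.Icc 1 ((m - 1).choose (r - 1)), lam a * (a : ℚ) ^ n) ∧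
      (∀ (n : ℕ) (u : Matrix (Fin m) (Fin n) ℂ), m ≤ n →
        AlgebraicIndependent ℚ (fun x : Fin m × Fin n => u x.1 x.2) →
        {p | IsCritical r u p}.Finite ∧
        {p | IsCritical r u p}.ncard = ∑ l ∈ Finset.Icc 1 ((m - 1).choose (r - 1)),
          Nat.stirlingSecond (n - m + 1) l * g l ∧
        ({p | IsCritical r u p}.ncard : ℚ) =
          ∑ a ∈ Finset.Icc 1 ((m - 1).choose (r - 1)), lam a * (a : ℚ) ^ n) ∧
      (r < m → ∀ (l : ℕ) (u : Matrix (Fin m) (Fin (m - 1)) ℂ) (w : Fin m → ℂ) (c : Fin l → ℂ),
        1 ≤ l → AlgebraicIndependent ℚ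
          (Sum.elim (fun x : Fin m × Fin (m - 1) => u x.1 x.2) (Sum.elim w c)) →
        {p | IsCritical r (Matrix.of fun i => Fin.append (u i) fun s => c s * w i) p ∧
          ∀ s t, s ≠ t → ∃ i, p i (Fin.natAdd (m - 1) s) / c s ≠
            p i (Fin.natAdd (m - 1) t) / c t}.Finite ∧
        {p | IsCritical r (Matrix.of fun i => Fin.append (u i) fun s => c s * w i) p ∧
          ∀ s t, s ≠ t → ∃ i, p i (Fin.natAdd (m - 1) s) / c s ≠
            p i (Fin.natAdd (m - 1) t) / c t}.ncard = g l) := by
  have hC : r < m → SpecCount m (m - 1) r := fun h _ _ _ _ u w c hS =>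
    spec_count hr hm (Or.inr ⟨by omega, by omega, inferInstance⟩) u w c hS
  obtain ⟨g, lam, hg, hlam, H, hgM⟩ := final_pack_MM hr hm hC
  refine ⟨g, lam, hg, hlam, ?_, ?_, ?_⟩
  · rintro n N hn (hN | hN)
    · obtain ⟨u, hu, hcard⟩ := exists_alg_of_MLDegree (le_trans hr hm)
        (le_trans hr (le_trans hm hn)) hN
      rw [← hcard]
      exact H n u hn hu
    · obtain ⟨u, hu, hcard⟩ := exists_alg_of_MLDegree (le_trans hr (le_trans hm hn))
        (le_trans hr hm) hN
      have hs := Alg.sum_ne (le_trans hr (le_trans hm hn)) (le_trans hr hm) u hu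
      rw [← hcard, ← ncard_transpose hs]
      exact H n u.transpose hn hu.transpose
  · intro n u hn hu
    exact ⟨(finite_of_alg hr hm (le_trans hm hn) u hu).1, H n u hn hu⟩
  · intro h l u w c hl hS
    rw [hgM h]
    exact ncard_distinct (hC h) (by omega) hl u w c hS

end Pool.Agent.Results.MP_14430d_ag.ExponentialSum
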