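import Pool.Agent.ML14.Growth

/-!
# The exponential growth rate of the ML degree of the matrices of rank at most r

For fixed `m` and `r` the ML degree of the variety of the `m × n` matrices of rank at most `r`
lies between `C(m-1,r-1)^(n-r)` and a polynomial in `n` times the same power; in particular its
`n`-th root converges to `C(m-1,r-1)`.
-/

namespace Pool.Agent.Results.MP_14430d_ag.GrowthRate

open Pool.ML

open Filter Topology

/-- Two-sided bounds for the ML degree of the `m × n` matrices of rank at most `r`, and its exact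
exponential growth rate in `n`; the same for the number of critical points of any data with
algebraically independent entries. -/
theorem result (m r : ℕ) (hr : 1 ≤ r) (hm : r ≤ m) :
    (∀ n N : ℕ, r ≤ n → IsMLDegree m n r N →
      (m - 1).choose (r - 1) ^ (n - r) ≤ N ∧
      N ≤ 3 ^ ((r + 1) * (m - 1)) * (m - 1).factorial ^ r *
        (r ^ 2 + r + 1) ^ (r * (r - 1)) * (8 * n ^ 2) ^ (r * (m - r)) *
          (m - 1).choose (r - 1) ^ (n - r)) ∧
    (∀ N : ℕ → ℕ, (∀ n, r ≤ n → IsMLDegree m n r (N n)) →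
      Tendsto (fun n : ℕ => (N n : ℝ) ^ (1 / (n : ℝ))) atTop
        (𝓝 ((m - 1).choose (r - 1) : ℝ))) ∧
    (∀ (n : ℕ) (u : Matrix (Fin m) (Fin n) ℂ), r ≤ n →
      AlgebraicIndependent ℚ (fun x : Fin m × Fin n => u x.1 x.2) →
      {p | IsCritical r u p}.Finite ∧
      (m - 1).choose (r - 1) ^ (n - r) ≤ {p | IsCritical r u p}.ncard ∧
      {p | IsCritical r u p}.ncard ≤ 3 ^ ((r + 1) * (m - 1)) * (m - 1).factorial ^ r *
        (r ^ 2 + r + 1) ^ (r * (r - 1)) * (8 * n ^ 2) ^ (r * (m - r)) *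
          (m - 1).choose (r - 1) ^ (n - r)) ∧
    (∀ u : (n : ℕ) → Matrix (Fin m) (Fin n) ℂ,
      (∀ n, AlgebraicIndependent ℚ (fun x : Fin m × Fin n => u n x.1 x.2)) →
      Tendsto (fun n : ℕ => ({p | IsCritical r (u n) p}.ncard : ℝ) ^ (1 / (n : ℝ))) atTop
        (𝓝 ((m - 1).choose (r - 1) : ℝ))) := by
  have hβ : 1 ≤ (m - 1).choose (r - 1) := Nat.choose_pos (by omega)
  have hK : 1 ≤ 3 ^ ((r + 1) * (m - 1)) * (m - 1).factorial ^ r *
      (r ^ 2 + r + 1) ^ (r * (r - 1)) * 8 ^ (r * (m - r)) := by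
    have h1 : 0 < (m - 1).factorial ^ r := pow_pos (Nat.factorial_pos _) _
    have h2 : 0 < 3 ^ ((r + 1) * (m - 1)) := by positivity
    have h3 : 0 < (r ^ 2 + r + 1) ^ (r * (r - 1)) := by positivity
    have h4 : 0 < 8 ^ (r * (m - r)) := by positivity
    exact Nat.mul_pos (Nat.mul_pos (Nat.mul_pos h2 h1) h3) h4
  have hKn : ∀ n : ℕ, 3 ^ ((r + 1) * (m - 1)) * (m - 1).factorial ^ r *
      (r ^ 2 + r + 1) ^ (r * (r - 1)) * (8 * n ^ 2) ^ (r * (m - r)) *
        (m - 1).choose (r - 1) ^ (n - r) =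
      (3 ^ ((r + 1) * (m - 1)) * (m - 1).factorial ^ r *
      (r ^ 2 + r + 1) ^ (r * (r - 1)) * 8 ^ (r * (m - r))) * n ^ (2 * (r * (m - r))) *
        (m - 1).choose (r - 1) ^ (n - r) := by
    intro n
    rw [mul_pow, ← pow_mul]
    ring
  have hb : ∀ n N : ℕ, r ≤ n → IsMLDegree m n r N →
      (m - 1).choose (r - 1) ^ (n - r) ≤ N ∧
      N ≤ 3 ^ ((r + 1) * (m - 1)) * (m - 1).factorial ^ r *
        (r ^ 2 + r + 1) ^ (r * (r - 1)) * (8 * n ^ 2) ^ (r * (m - r)) *
          (m - 1).choose (r - 1) ^ (n - r) := by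
    intro n N hn hN
    refine ⟨le_MLDegree (le_trans hr hm) (le_trans hr hn) (LB_simple hr hm hn) hN, ?_⟩
    rw [← UBq_eq hr hm hn]
    exact MLDegree_le hr hm hn hN
  have hb' : ∀ (n : ℕ) (u : Matrix (Fin m) (Fin n) ℂ), r ≤ n →
      AlgebraicIndependent ℚ (fun x : Fin m × Fin n => u x.1 x.2) →
      {p | IsCritical r u p}.Finite ∧
      (m - 1).choose (r - 1) ^ (n - r) ≤ {p | IsCritical r u p}.ncard ∧
      {p | IsCritical r u p}.ncard ≤ 3 ^ ((r + 1) * (m - 1)) * (m - 1).factorial ^ r *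
        (r ^ 2 + r + 1) ^ (r * (r - 1)) * (8 * n ^ 2) ^ (r * (m - r)) *
          (m - 1).choose (r - 1) ^ (n - r) := by
    intro n u hn hu
    obtain ⟨hf, hle⟩ := finite_of_alg hr hm hn u hu
    refine ⟨hf, ?_, ?_⟩
    · have h1 := le_encard (le_trans hr hm) (le_trans hr hn) (LB_simple hr hm hn) u hu
      rw [← hf.cast_ncard_eq] at h1
      exact_mod_cast h1
    · rw [← UBq_eq hr hm hn]
      exact hle
  refine ⟨hb, ?_, hb', ?_⟩
  · intro N hN
    refine tendsto_of_bounds N _ _ (2 * (r * (m - r))) r hβ hK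
      (fun n hn => (hb n (N n) hn (hN n hn)).1) ?_
    intro n hn
    rw [← hKn n]
    exact (hb n (N n) hn (hN n hn)).2
  · intro u hu
    refine tendsto_of_bounds _ _ _ (2 * (r * (m - r))) r hβ hK
      (fun n hn => (hb' n (u n) hn (hu n)).2.1) ?_
    intro n hn
    rw [← hKn n]
    exact (hb' n (u n) hn (hu n)).2.2

end Pool.Agent.Results.MP_14430d_ag.GrowthRate
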